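import Mathlib
import Pool.Agent.CommMaps.Defs
import Pool.Agent.CommMaps.Main

namespace Pool.Agent.Results.MP_eedf80_an.FiniteCritical

open Set Pool.Agent.CommMaps

/-- Commuting differentiable maps `f, g` of `[0,1]` have a common fixed point if `f` (or `g`) has
only finitely many critical points and no critical value of `f` is a critical value of `g`. More
generally it is enough that `f` has finitely many critical points and that every `x`, for which
`g x` is critical for `f` and `f x` is critical for `g`, is critical for `f`. -/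
theorem result (f g : ℝ → ℝ)
    (hf : MapsTo f (Icc (0 : ℝ) 1) (Icc (0 : ℝ) 1)) (hg : MapsTo g (Icc (0 : ℝ) 1) (Icc (0 : ℝ) 1))
    (df : DifferentiableOn ℝ f (Icc (0 : ℝ) 1)) (dg : DifferentiableOn ℝ g (Icc (0 : ℝ) 1))
    (hcomm : ∀ x ∈ Icc (0 : ℝ) 1, f (g x) = g (f x)) :
    (((Crit f).Finite ∨ (Crit g).Finite) → (∀ c ∈ Crit f, ∀ d ∈ Crit g, f c ≠ g d) →
      ∃ x ∈ Icc (0 : ℝ) 1, f x = x ∧ g x = x) ∧
    ((Crit f).Finite → (∀ x ∈ Icc (0 : ℝ) 1, g x ∈ Crit f → f x ∈ Crit g → x ∈ Crit f) →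
      ∃ x ∈ Icc (0 : ℝ) 1, f x = x ∧ g x = x) := by
  constructor
  · rintro (hfin | hfin) hval
    · refine main hf hg df dg hcomm hfin fun x hx h1 h2 => ?_
      exact absurd (hcomm x hx) (hval _ ⟨hg hx, h1⟩ _ ⟨hf hx, h2⟩)
    · obtain ⟨x, hx, h1, h2⟩ := main hg hf dg df (fun x hx => (hcomm x hx).symm) hfin
        (fun x hx h1 h2 => absurd (hcomm x hx) (hval _ ⟨hg hx, h2⟩ _ ⟨hf hx, h1⟩))
      exact ⟨x, hx, h2, h1⟩
  · intro hfin hval
    refine main hf hg df dg hcomm hfin fun x hx h1 h2 => ?_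
    exact (hval x hx ⟨hg hx, h1⟩ ⟨hf hx, h2⟩).2

end Pool.Agent.Results.MP_eedf80_an.FiniteCritical
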